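import Pool.Agent.MWGR.StmtsA

/-!
# Row EXL of block MWGR
-/

namespace Pool.Agent.MWGR.H44

open Pool.Agent.Helper14_MV Pool.Agent.Helper2_MV Pool.Agent.MVO Pool.Agent.MWL Pool.Agent.MWS
  Pool.Agent.MWH Pool.Agent.MWGR

theorem ok_pow {H pre suf A D : List ℕ} {x : ℕ} {e : ℕ} (e' : ℕ)
    (hok : Ok1 H pre suf (A ++ (List.replicate e x ++ D))) (hx : x ∈ H) (hA : x ∈ A) (hD : x ∈ D) :
    Ok1 H pre suf (A ++ (List.replicate e' x ++ D)) := by
  have hc : ∀ (k y : ℕ), (A ++ (List.replicate k x ++ D)).count y =
      A.count y + ((if x = y then k else 0) + D.count y) := by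
    intro k y
    rw [List.count_append, List.count_append, List.count_replicate]
    simp only [beq_iff_eq]
  refine ⟨hok.nd, ?_, ?_⟩
  · intro y hy
    rw [hc]
    by_cases h : x = y
    · subst h
      have h1 : 0 < A.count x := List.count_pos_iff.2 hA
      have h2 : 0 < D.count x := List.count_pos_iff.2 hD
      omega
    · have h1 := hok.hv y hy
      rw [hc, if_neg h] at h1
      rw [if_neg h]
      exact h1
  · intro a ha haH
    have hxa : ¬ x = a := by
      rintro rfl
      exact haH hx
    have ha' : a ∈ A ++ (List.replicate e x ++ D) := by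
      rcases List.mem_append.1 ha with h | h
      · exact List.mem_append_left _ h
      · rcases List.mem_append.1 h with h | h
        · exact absurd (List.eq_of_mem_replicate h).symm hxa
        · exact List.mem_append_right _ (List.mem_append_right _ h)
    obtain ⟨h1, h2, h3⟩ := hok.lt a ha' haH
    refine ⟨?_, h2, h3⟩
    rw [hc, if_neg hxa] at h1
    rw [hc, if_neg hxa]
    exact h1

theorem exl (inl : InlStmt) : ExlStmt := by
  intro n β hb H pre suf A D x e e' hok hx hA hD he
  refine ⟨ok_pow e' hok hx hA hD, ?_⟩
  have key : ∀ (a b : ℕ), a ≤ b → a ≡ b [MOD n] →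
      Ok1 H pre suf (A ++ (List.replicate a x ++ D)) →
        RR β (Wd pre suf (A ++ (List.replicate a x ++ D)))
          (Wd pre suf (A ++ (List.replicate b x ++ D))) := by
    intro a b hab hm hoka
    obtain ⟨m, hm⟩ := (Nat.modEq_iff_dvd' hab).1 hm
    have h1 := (inl n β hb H pre suf A (List.replicate a x ++ D) x m hoka hx hA
      (List.mem_append_right _ hD)).2
    have e1 : List.replicate (n * m) x ++ (List.replicate a x ++ D) = List.replicate b x ++ D := by
      rw [← List.append_assoc, ← List.replicate_add]
      have : n * m + a = b := by omega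
      rw [this]
    rwa [e1] at h1
  rcases Nat.le_total e e' with h | h
  · exact key e e' h he hok
  · exact (key e' e h he.symm (ok_pow e' hok hx hA hD)).symm

end Pool.Agent.MWGR.H44
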