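import Pool.Agent.MWGR.StmtsA

/-!
# Row RT1 of block MWGR
-/

namespace Pool.Agent.MWGR.H44

open Pool.Agent.Helper14_MV Pool.Agent.Helper2_MV Pool.Agent.MVO Pool.Agent.MWL Pool.Agent.MWS
  Pool.Agent.MWH Pool.Agent.MWGR

/-- the output of a heavy token -/
def oh (n : ℕ) (N : ℕ → ℕ) (t : ℕ) : List ℕ :=
  if t % 3 = 1 then List.replicate (2 * n) (t / 3) else List.replicate (n + N (t / 3)) (t / 3)

theorem real_heavy (n : ℕ) (H : List ℕ) (Λ : ℕ → ℕ → ℕ) (N : ℕ → ℕ) (O : ℕ → Bool) (t : ℕ)
    (T : List ℕ) (ht : t % 3 ≠ 0) :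
    real n H Λ N O (t :: T) = oh n N t ++
      real n H Λ N (Function.update O (t / 3) (decide (t % 3 = 1))) T := by
  show (if t % 3 = 0 then outL n H Λ O (t / 3)
      else if t % 3 = 1 then List.replicate (2 * n) (t / 3)
      else List.replicate (n + N (t / 3)) (t / 3)) ++
      real n H Λ N (if t % 3 = 0 then O else Function.update O (t / 3) (decide (t % 3 = 1))) T = _
  rw [if_neg ht, if_neg ht]
  rfl

theorem oh_mem {n : ℕ} {N : ℕ → ℕ} {t c : ℕ} (h : c ∈ oh n N t) : c = t / 3 := by
  unfold oh at h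
  split at h
  · exact List.eq_of_mem_replicate h
  · exact List.eq_of_mem_replicate h

theorem rt1 (prm : PrmStmt) (rap : RapStmt) (rok : RokStmt) : Rt1Stmt := by
  intro n β hb H pre suf T1 T2 s t Λ N hH h1 h2 hs ht hst
  have hok := (rok n H Λ N hb.pos hH).1 pre suf _ h1
  have hmem : ∀ c ∈ oh n N s ++ oh n N t, c ∈ H := by
    intro c hc
    rcases List.mem_append.1 hc with h | h
    · rw [oh_mem h]
      rcases h1.lt s (List.mem_append_right _ (List.mem_cons_self ..)) with h3 | h3
      · exact absurd h3.1 hs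
      · exact h3.2
    · rw [oh_mem h]
      rcases h1.lt t (List.mem_append_right _ (List.mem_cons_of_mem _ (List.mem_cons_self ..)))
        with h3 | h3
      · exact absurd h3.1 ht
      · exact h3.2
  have e1 : real n H Λ N O0 (T1 ++ s :: t :: T2) = real n H Λ N O0 T1 ++
      ((oh n N s ++ oh n N t) ++ real n H Λ N (Function.update (Function.update (opn O0 T1) (s / 3)
        (decide (s % 3 = 1))) (t / 3) (decide (t % 3 = 1))) T2) := by
    rw [rap.1, real_heavy _ _ _ _ _ s _ hs, real_heavy _ _ _ _ _ t _ ht, List.append_assoc]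
  have e2 : real n H Λ N O0 (T1 ++ t :: s :: T2) = real n H Λ N O0 T1 ++
      ((oh n N t ++ oh n N s) ++ real n H Λ N (Function.update (Function.update (opn O0 T1) (s / 3)
        (decide (s % 3 = 1))) (t / 3) (decide (t % 3 = 1))) T2) := by
    rw [rap.1, real_heavy _ _ _ _ _ t _ ht, real_heavy _ _ _ _ _ s _ hs, List.append_assoc,
      Function.update_comm hst]
  rw [e1] at hok
  rw [e1, e2]
  exact (prm n β hb H pre suf _ _ _ _ hok hmem List.perm_append_comm).2

end Pool.Agent.MWGR.H44
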